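import Mathlib
import Pool.Agent.N627.ND.Def
import Pool.Agent.N627.ND.Stm

/-!
# ND/C2: denser shallow minors of graphs with large minimum degree
-/

set_option autoImplicit false

namespace Pool.Agent.N482.ND

open Pool.Agent.N627.ND Finset
open scoped Classical

variable {V : Type}

/-- common neighbours of the elements of `e` -/
noncomputable def co [Fintype V] (G : SimpleGraph V) (e : Finset V) : Finset V :=
  Finset.univ.filter fun z => ∀ x ∈ e, G.Adj z x

/-- no `t` pairwise heavy vertices -/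
theorem no_heavy [Fintype V] (G : SimpleGraph V) (t : ℕ) (hL : ¬ Link G 2 t)
    (x : Fin t → V) (hx : Function.Injective x)
    (hh : ∀ i j, i ≠ j → t + t ^ 2 ≤ (co G {x i, x j}).card) : False := by
  apply hL
  let ι := {p : Fin t × Fin t // p.1 < p.2}
  let S : ι → Finset V := fun p => co G {x p.1.1, x p.1.2} \ (Finset.univ.image x)
  have hS : ∀ p : ι, t ^ 2 ≤ (S p).card := by
    intro p
    have h1 := hh p.1.1 p.1.2 (ne_of_lt p.2)
    have h2 : (Finset.univ.image x).card ≤ t := by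
      refine Finset.card_image_le.trans ?_
      simp
    have h3 := Finset.le_card_sdiff (Finset.univ.image x) (co G {x p.1.1, x p.1.2})
    simp only [S]
    omega
  have hι : Fintype.card ι ≤ t ^ 2 := by
    refine (Fintype.card_subtype_le _).trans ?_
    simp [sq]
  obtain ⟨m, hm, hm2⟩ := (Finset.all_card_le_biUnion_card_iff_exists_injective S).1 (by
    intro A
    rcases A.eq_empty_or_nonempty with rfl | ⟨p, hp⟩
    · simp
    · calc A.card ≤ Fintype.card ι := Finset.card_le_univ A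
        _ ≤ t ^ 2 := hι
        _ ≤ (S p).card := hS p
        _ ≤ _ := Finset.card_le_card (Finset.subset_biUnion_of_mem S hp))
  have hm3 : ∀ p : ι, G.Adj (m p) (x p.1.1) ∧ G.Adj (m p) (x p.1.2) ∧ ∀ k, m p ≠ x k := by
    intro p
    have h1 := hm2 p
    simp only [S, co, Finset.mem_sdiff, Finset.mem_filter, Finset.mem_univ, true_and,
      Finset.mem_insert, Finset.mem_singleton, forall_eq_or_imp, forall_eq, Finset.mem_image,
      not_exists] at h1
    exact ⟨h1.1.1, h1.1.2, fun k e => h1.2 k e.symm⟩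
  let P : Fin t → Fin t → ℕ → V := fun i j a =>
    if a = 0 then x i else if h : a = 1 ∧ i < j then m ⟨(i, j), h.2⟩ else x j
  have hP0 : ∀ i j, P i j 0 = x i := fun i j => by simp [P]
  have hP1 : ∀ i j (h : i < j), P i j 1 = m ⟨(i, j), h⟩ := fun i j h => by simp [P, h]
  have hP2 : ∀ i j, P i j 2 = x j := fun i j => by simp [P]
  refine ⟨x, P, ?_, ?_⟩
  · intro i j hij
    refine ⟨hP0 i j, hP2 i j, ?_⟩
    intro a ha
    right
    have h1 := hm3 ⟨(i, j), hij⟩
    interval_cases a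
    · rw [hP0, hP1 i j hij]; exact h1.1.symm
    · rw [hP1 i j hij, hP2]; exact h1.2.1
  · intro i j k l hij hjk hkl a b ha hb
    have h1 := hm3 ⟨(i, j), hij⟩
    have h2 := hm3 ⟨(k, l), hkl⟩
    have h3 : m ⟨(i, j), hij⟩ ≠ m ⟨(k, l), hkl⟩ := by
      intro e
      have h4 : i = k := congrArg (fun p : ι => p.1.1) (hm e)
      exact absurd (h4 ▸ hij.trans hjk) (lt_irrefl _)
    have hik : x i ≠ x k := fun e => by have := hx e; omega
    have hil : x i ≠ x l := fun e => by have := hx e; omega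
    have hjk' : x j ≠ x k := fun e => by have := hx e; omega
    have hjl : x j ≠ x l := fun e => by have := hx e; omega
    interval_cases a <;> interval_cases b <;>
      simp only [hP0, hP2, hP1 i j hij, hP1 k l hkl] <;>
      first
        | assumption
        | exact h1.2.2 _
        | exact fun e => h2.2.2 _ e.symm

/-- Turan: many light pairs -/
theorem light_pairs {U : Type} [Fintype U] (H : SimpleGraph U) (t : ℕ) (ht : 2 ≤ t)
    (hc : H.CliqueFree t) (hd : t ≤ Fintype.card U) :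
    1 / (2 * (t : ℝ) ^ 2) * ((Fintype.card U : ℕ) : ℝ) ^ 2 ≤ ((Hᶜ.edgeSet.ncard : ℕ) : ℝ) := by
  have hncard : Hᶜ.edgeSet.ncard = Hᶜ.edgeFinset.card := by
    rw [← SimpleGraph.coe_edgeFinset, Set.ncard_coe_finset]
  rw [hncard]
  obtain ⟨r, rfl⟩ : ∃ r, t = r + 1 := ⟨t - 1, by omega⟩
  have hr : 1 ≤ r := by omega
  set n := Fintype.card U with hn
  have h1 : H.edgeFinset.card ≤ (n ^ 2 - (n % r) ^ 2) * (r - 1) / (2 * r) + (n % r).choose 2 :=
    hc.card_edgeFinset_le
  have h2 : Hᶜ.edgeFinset.card + H.edgeFinset.card = n.choose 2 := by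
    have hdis : Disjoint Hᶜ.edgeFinset H.edgeFinset := by
      rw [SimpleGraph.disjoint_edgeFinset]
      exact disjoint_compl_left
    rw [← Finset.card_union_of_disjoint hdis, ← SimpleGraph.edgeFinset_sup, hn,
      ← SimpleGraph.card_edgeFinset_top_eq_card_choose_two]
    congr 1
    ext e
    simp only [SimpleGraph.mem_edgeFinset]
    rw [compl_sup_eq_top]
  have h3 : ((n.choose 2 : ℕ) : ℝ) = (n : ℝ) * (n - 1) / 2 := Nat.cast_choose_two ℝ n
  set ρ := n % r with hρ
  have hρr : ρ < r := Nat.mod_lt _ (by omega)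
  have hρn : ρ ≤ n := Nat.mod_le _ _
  have h4 : (((ρ).choose 2 : ℕ) : ℝ) = (ρ : ℝ) * (ρ - 1) / 2 := Nat.cast_choose_two ℝ ρ
  have h5 : ((H.edgeFinset.card : ℕ) : ℝ) ≤
      ((n : ℝ) ^ 2 - (ρ : ℝ) ^ 2) * ((r : ℝ) - 1) / (2 * r) + (ρ : ℝ) * (ρ - 1) / 2 := by
    have h6 : (((n ^ 2 - ρ ^ 2) * (r - 1) / (2 * r) : ℕ) : ℝ) ≤
        ((n : ℝ) ^ 2 - (ρ : ℝ) ^ 2) * ((r : ℝ) - 1) / (2 * r) := by
      refine (Nat.cast_div_le).trans ?_
      have h7 : ρ ^ 2 ≤ n ^ 2 := Nat.pow_le_pow_left hρn 2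
      rw [Nat.cast_mul, Nat.cast_sub h7, Nat.cast_sub hr]
      push_cast
      exact le_rfl
    calc ((H.edgeFinset.card : ℕ) : ℝ) ≤
        (((n ^ 2 - ρ ^ 2) * (r - 1) / (2 * r) + ρ.choose 2 : ℕ) : ℝ) := by exact_mod_cast h1
      _ = (((n ^ 2 - ρ ^ 2) * (r - 1) / (2 * r) : ℕ) : ℝ) + ((ρ.choose 2 : ℕ) : ℝ) := by
        push_cast; ring
      _ ≤ _ := by rw [h4]; linarith
  have h8 : ((Hᶜ.edgeFinset.card : ℕ) : ℝ) = (n : ℝ) * (n - 1) / 2 -
      ((H.edgeFinset.card : ℕ) : ℝ) := by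
    rw [← h3, ← h2]; push_cast; ring
  rw [h8]
  have hr0 : (0 : ℝ) < r := by exact_mod_cast hr
  have hr1 : (1 : ℝ) ≤ r := by exact_mod_cast hr
  have hρr' : (ρ : ℝ) ≤ r := by exact_mod_cast hρr.le
  have hρ0 : (0 : ℝ) ≤ ρ := Nat.cast_nonneg _
  have hn1 : (r : ℝ) + 1 ≤ n := by exact_mod_cast hd
  have h9 : ((n : ℝ) ^ 2 - (ρ : ℝ) ^ 2) * ((r : ℝ) - 1) / (2 * r) + (ρ : ℝ) * (ρ - 1) / 2
      ≤ (n : ℝ) ^ 2 / 2 - (n : ℝ) ^ 2 / (2 * r) := by
    have h10 : (n : ℝ) ^ 2 / 2 - (n : ℝ) ^ 2 / (2 * r) -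
      (((n : ℝ) ^ 2 - (ρ : ℝ) ^ 2) * ((r : ℝ) - 1) / (2 * r) + (ρ : ℝ) * (ρ - 1) / 2)
      = ρ * (r - ρ) / (2 * r) := by
      field_simp
      ring
    have h11 : 0 ≤ (ρ : ℝ) * (r - ρ) / (2 * r) := by
      apply div_nonneg (mul_nonneg hρ0 (by linarith)) (by linarith)
    linarith
  have h12 : 1 / (2 * ((r + 1 : ℕ) : ℝ) ^ 2) * (n : ℝ) ^ 2 ≤
      (n : ℝ) * (n - 1) / 2 - ((n : ℝ) ^ 2 / 2 - (n : ℝ) ^ 2 / (2 * r)) := by
    have h13 : (n : ℝ) * (n - 1) / 2 - ((n : ℝ) ^ 2 / 2 - (n : ℝ) ^ 2 / (2 * r)) =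
      n * (n - r) / (2 * r) := by
      field_simp
      ring
    rw [h13]
    push_cast
    rw [div_mul_eq_mul_div, div_le_div_iff₀ (by positivity) (by positivity)]
    have h14 : (n : ℝ) ≤ (n - r) * (r + 1) := by nlinarith
    have h15 : (0 : ℝ) < n := by linarith
    have h16 : (r : ℝ) ≤ r + 1 := by linarith
    have h17 : (n : ℝ) * r ≤ (n - r) * (r + 1) ^ 2 := by
      have : (n : ℝ) * r ≤ ((n - r) * (r + 1)) * (r + 1) := by
        have h18 : (n : ℝ) * r ≤ ((n - r) * (r + 1)) * r := mul_le_mul_of_nonneg_right h14 hr0.le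
        have h19 : ((n - r) * (r + 1)) * (r : ℝ) ≤ ((n - r) * (r + 1)) * (r + 1) := by
          apply mul_le_mul_of_nonneg_left h16
          exact mul_nonneg (by linarith) (by linarith)
        linarith
      calc (n : ℝ) * r ≤ _ := this
        _ = _ := by ring
    nlinarith
  linarith

theorem c2 (h1 : S_C1) : S_C2 := by
  intro t ht
  set s : ℕ := t + t ^ 2 with hs
  have hs1 : 1 ≤ s := by omega
  set δ : ℝ := 1 / (2 * (t : ℝ) ^ 2) with hδ
  have ht0 : (0 : ℝ) < t := by exact_mod_cast (by omega : 0 < t)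
  have hδ0 : 0 < δ := by rw [hδ]; positivity
  refine ⟨8 * s / δ, by positivity, ?_⟩
  intro V _ _ G d hd hL hdeg
  -- neighbours
  have hT : ∀ v, ∃ T : Finset V, T.card = d ∧ ∀ x ∈ T, G.Adj v x := by
    intro v
    have h2 : d ≤ (Finset.univ.filter fun x => G.Adj v x).card := by
      refine (hdeg v).trans (le_of_eq ?_)
      rw [← Set.ncard_coe_finset]
      congr 1
      ext x
      simp
    obtain ⟨T, hT1, hT2⟩ := Finset.exists_subset_card_eq h2
    exact ⟨T, hT2, fun x hx => by simpa using hT1 hx⟩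
  choose T hT1 hT2 using hT
  let L : V → Finset (Finset V) := fun v =>
    ((T v).powersetCard 2).filter fun e => (co G e).card < s
  have hLm : ∀ v e, e ∈ L v ↔ (e ⊆ T v ∧ e.card = 2) ∧ (co G e).card < s := by
    intro v e
    simp [L, Finset.mem_powersetCard]
  have hLc : ∀ v, δ * (d : ℝ) ^ 2 ≤ ((L v).card : ℝ) := by
    intro v
    let H : SimpleGraph (T v) :=
      { Adj := fun a b => a ≠ b ∧ s ≤ (co G {(a : V), (b : V)}).card
        symm := ⟨fun a b h => ⟨h.1.symm, by rw [Finset.pair_comm]; exact h.2⟩⟩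
        loopless := ⟨fun a h => h.1 rfl⟩ }
    have hcf : H.CliqueFree t := by
      intro K hK
      let x : Fin t → V := fun i => ((K.equivFinOfCardEq hK.card_eq).symm i : T v)
      refine no_heavy G t hL x ?_ ?_
      · intro i j hij
        have := Subtype.ext hij
        exact (K.equivFinOfCardEq hK.card_eq).symm.injective (Subtype.ext this)
      · intro i j hij
        have h3 : ((K.equivFinOfCardEq hK.card_eq).symm i : T v) ≠
            ((K.equivFinOfCardEq hK.card_eq).symm j : T v) := by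
          intro e
          exact hij ((K.equivFinOfCardEq hK.card_eq).symm.injective (Subtype.ext e))
        have h4 := hK.isClique ((K.equivFinOfCardEq hK.card_eq).symm i).2
          ((K.equivFinOfCardEq hK.card_eq).symm j).2 h3
        exact h4.2
    have hcard : Fintype.card (T v) = d := by simp [hT1]
    have h5 := light_pairs H t ht hcf (by rw [hcard]; exact hd)
    rw [hcard] at h5
    refine h5.trans ?_
    have h6 : Hᶜ.edgeSet.ncard ≤ (L v).card := by
      have hncard : Hᶜ.edgeSet.ncard = Hᶜ.edgeFinset.card := by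
        rw [← SimpleGraph.coe_edgeFinset, Set.ncard_coe_finset]
      rw [hncard]
      refine Finset.card_le_card_of_injOn (fun z => (Sym2.map Subtype.val z).toFinset) ?_ ?_
      · intro z hz
        simp only [Finset.mem_coe] at hz ⊢
        induction z using Sym2.ind with
        | _ a b =>
          rw [SimpleGraph.mem_edgeFinset, SimpleGraph.mem_edgeSet, SimpleGraph.compl_adj] at hz
          rw [hLm, Sym2.map_mk, Sym2.toFinset_mk_eq]
          have hab : (a : V) ≠ b := fun e => hz.1 (Subtype.ext e)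
          refine ⟨⟨?_, Finset.card_pair hab⟩, ?_⟩
          · intro y hy
            simp only [Finset.mem_insert, Finset.mem_singleton] at hy
            rcases hy with rfl | rfl
            · exact a.2
            · exact b.2
          · by_contra hcon
            exact hz.2 ⟨hz.1, not_lt.mp hcon⟩
      · intro z _ z' _ hzz
        have h7 : Sym2.map Subtype.val z = Sym2.map Subtype.val z' := by
          apply Sym2.ext
          intro x
          rw [← Sym2.mem_toFinset, ← Sym2.mem_toFinset]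
          have h8 : (Sym2.map Subtype.val z).toFinset = (Sym2.map Subtype.val z').toFinset := hzz
          rw [h8]
        exact Sym2.map.injective Subtype.val_injective h7
    exact_mod_cast h6
  obtain ⟨X, Y, hXY, hY, hbd⟩ := h1 V d δ T L (by omega) hδ0.le
    (fun v => ⟨hT1 v, fun h => G.loopless.irrefl v (hT2 v v h)⟩)
    (fun v e he => ((hLm v e).1 he).1) hLc
  have hY' : ∀ v, ∃ e, v ∈ Y → e ∈ L v ∧ e ⊆ X := by
    intro v
    by_cases hv : v ∈ Y
    · obtain ⟨e, he⟩ := hY v hv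
      exact ⟨e, fun _ => he⟩
    · exact ⟨∅, fun h => absurd h hv⟩
  choose ev hev using hY'
  let E : Finset (Finset V) := Y.image ev
  have hYE : Y.card ≤ s * E.card := by
    refine Finset.card_le_mul_card_image Y s ?_
    intro e he
    obtain ⟨v0, hv0, rfl⟩ := Finset.mem_image.1 he
    have h2 := ((hLm v0 _).1 (hev v0 hv0).1).2
    refine le_trans (Finset.card_le_card ?_) h2.le
    intro v hv
    simp only [Finset.mem_filter] at hv
    simp only [co, Finset.mem_filter, Finset.mem_univ, true_and]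
    intro x hx
    have h3 := ((hLm v _).1 (hev v hv.1).1).1.1
    rw [← hv.2] at hx
    exact hT2 v x (h3 hx)
  have hq : ∀ e, ∃ q, e ∈ E → q ∈ Y ∧ ev q = e := by
    intro e
    by_cases he : e ∈ E
    · obtain ⟨v0, hv0, h⟩ := Finset.mem_image.1 he
      exact ⟨v0, fun _ => ⟨hv0, h⟩⟩
    · exact ⟨Classical.arbitrary V, fun h => absurd h he⟩
  choose qq hqq using hq
  have hE : ∀ e ∈ E, e ⊆ X ∧ e.card = 2 ∧ ∀ x ∈ e, G.Adj (qq e) x := by
    intro e he
    have h2 := hqq e he
    have h3 := hev (qq e) h2.1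
    rw [h2.2] at h3
    have h4 := (hLm _ _).1 h3.1
    exact ⟨h3.2, h4.1.2, fun x hx => hT2 _ x (h4.1.1 hx)⟩
  -- the minor
  let φ : Fin X.card → V := fun a => (X.equivFin.symm a : V)
  have hφ : Function.Injective φ := fun a b h => X.equivFin.symm.injective (Subtype.ext h)
  have hφX : ∀ a, φ a ∈ X := fun a => (X.equivFin.symm a).2
  have hφs : ∀ x ∈ X, ∃ a, φ a = x := fun x hx => ⟨X.equivFin ⟨x, hx⟩, by simp [φ]⟩
  let H : SimpleGraph (Fin X.card) :=
    { Adj := fun a b => a ≠ b ∧ ({φ a, φ b} : Finset V) ∈ E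
      symm := ⟨fun a b h => ⟨h.1.symm, by rw [Finset.pair_comm]; exact h.2⟩⟩
      loopless := ⟨fun a h => h.1 rfl⟩ }
  let g : Sym2 (Fin X.card) → Finset V := fun z => (Sym2.map φ z).toFinset
  have hg : ∀ a b, g s(a, b) = {φ a, φ b} := fun a b => by
    simp [g, Sym2.map_mk, Sym2.toFinset_mk_eq]
  have hginj : Function.Injective g := by
    intro z z' h
    have h7 : Sym2.map φ z = Sym2.map φ z' := by
      apply Sym2.ext
      intro x
      rw [← Sym2.mem_toFinset, ← Sym2.mem_toFinset]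
      have h8 : (Sym2.map φ z).toFinset = (Sym2.map φ z').toFinset := h
      rw [h8]
    exact Sym2.map.injective hφ h7
  refine ⟨X.card, H, ⟨?_⟩, ?_, ?_⟩
  · refine
      { c := φ
        B := fun a => {φ a}
        Q := fun z => {v | g z ∈ E ∧ v = qq (g z)}
        c_mem := fun a => rfl
        B_disj := ?_
        Q_disj := ?_
        BQ_disj := ?_
        walk := ?_ }
    · intro a b hab
      rw [Set.disjoint_singleton]
      exact fun e => hab (hφ e)
    · intro z z' hz
      rw [Set.disjoint_left]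
      rintro v ⟨h2, h3⟩ ⟨h4, h5⟩
      apply hz
      apply hginj
      rw [← (hqq _ h2).2, ← (hqq _ h4).2, ← h3, ← h5]
    · intro a z
      rw [Set.disjoint_left]
      rintro v h2 ⟨h3, h4⟩
      have h5 : v = φ a := h2
      have h6 := (hqq _ h3).1
      rw [← h4, h5] at h6
      exact Finset.disjoint_left.1 hXY (hφX a) h6
    · rintro a b ⟨hab, hE'⟩
      have h2 := (hE _ hE').2.2
      have h3 : G.Adj (qq {φ a, φ b}) (φ a) := h2 _ (by simp)
      have h4 : G.Adj (qq {φ a, φ b}) (φ b) := h2 _ (by simp)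
      refine ⟨SimpleGraph.Walk.cons h3.symm (SimpleGraph.Walk.cons h4 SimpleGraph.Walk.nil),
        by simp, ?_⟩
      intro z hz
      simp only [SimpleGraph.Walk.support_cons, SimpleGraph.Walk.support_nil, List.mem_cons,
        List.not_mem_nil, or_false] at hz
      rcases hz with rfl | rfl | rfl
      · exact Or.inl (Or.inl rfl)
      · refine Or.inl (Or.inr ⟨?_, ?_⟩)
        · rw [hg]; exact hE'
        · rw [hg]
      · exact Or.inr rfl
  · -- m d ≤ C |V|
    have h2 : δ * ((d : ℝ) * (X.card : ℝ)) ≤ 8 * (Fintype.card V : ℝ) := by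
      have h3 : (Y.card : ℝ) ≤ (Fintype.card V : ℝ) := by exact_mod_cast Finset.card_le_univ Y
      have h4 : 0 ≤ δ * (Fintype.card V : ℝ) := by positivity
      have h5 : δ * ((d : ℝ) * (X.card : ℝ) + (Fintype.card V : ℝ)) =
        δ * ((d : ℝ) * (X.card : ℝ)) + δ * (Fintype.card V : ℝ) := by ring
      linarith
    have hs1' : (1 : ℝ) ≤ s := by exact_mod_cast hs1
    rw [div_mul_eq_mul_div, le_div_iff₀ hδ0]
    have h6 : 8 * (Fintype.card V : ℝ) ≤ 8 * s * (Fintype.card V : ℝ) := by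
      have : (0 : ℝ) ≤ (Fintype.card V : ℝ) := Nat.cast_nonneg _
      nlinarith
    calc (X.card : ℝ) * d * δ = δ * ((d : ℝ) * (X.card : ℝ)) := by ring
      _ ≤ _ := h2.trans h6
  · -- |V| ≤ C |E(H)|
    have h2 : E.card ≤ H.edgeSet.ncard := by
      have h3 : H.edgeSet.ncard = H.edgeFinset.card := by
        rw [← SimpleGraph.coe_edgeFinset, Set.ncard_coe_finset]
      rw [h3]
      have h4 : E ⊆ H.edgeFinset.image g := by
        intro e he
        obtain ⟨h5, h6, -⟩ := hE e he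
        obtain ⟨x, y, hxy, rfl⟩ := Finset.card_eq_two.1 h6
        obtain ⟨a, rfl⟩ := hφs x (h5 (by simp))
        obtain ⟨b, rfl⟩ := hφs y (h5 (by simp))
        refine Finset.mem_image.2 ⟨s(a, b), ?_, hg a b⟩
        rw [SimpleGraph.mem_edgeFinset, SimpleGraph.mem_edgeSet]
        exact ⟨fun e => hxy (by rw [e]), he⟩
      exact (Finset.card_le_card h4).trans Finset.card_image_le
    have h3 : δ * (Fintype.card V : ℝ) ≤ 8 * (Y.card : ℝ) := by
      have h4 : 0 ≤ δ * ((d : ℝ) * (X.card : ℝ)) := by positivity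
      have h5 : δ * ((d : ℝ) * (X.card : ℝ) + (Fintype.card V : ℝ)) =
        δ * ((d : ℝ) * (X.card : ℝ)) + δ * (Fintype.card V : ℝ) := by ring
      linarith
    have h4 : (Y.card : ℝ) ≤ s * (E.card : ℝ) := by exact_mod_cast hYE
    have h5 : (E.card : ℝ) ≤ (H.edgeSet.ncard : ℝ) := by exact_mod_cast h2
    rw [div_mul_eq_mul_div, le_div_iff₀ hδ0]
    have h6 : (s : ℝ) * (E.card : ℝ) ≤ s * (H.edgeSet.ncard : ℝ) :=
      mul_le_mul_of_nonneg_left h5 (Nat.cast_nonneg _)
    calc (Fintype.card V : ℝ) * δ = δ * (Fintype.card V : ℝ) := by ring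
      _ ≤ 8 * (s * (H.edgeSet.ncard : ℝ)) := by linarith
      _ = _ := by ring

end Pool.Agent.N482.ND
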